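import Pool.Agent.Work.MP_1aab6d_co.Defs

/-!
# Light vertices
-/

set_option autoImplicit false

namespace UnfL

variable {V : Type*} (G : SimpleGraph V)

/-- The neighbours of `v` of infinite degree which lie outside `X`. -/
def IN (X : Set V) (v : V) : Set V := {w | G.Adj v w ∧ Unf.Inf G w ∧ w ∉ X}

/-- `v` has finite degree and has either at most one neighbour of infinite degree outside `X`, or
even degree and at most two such neighbours. -/
def Light (X : Set V) (v : V) : Prop :=
  ¬ Unf.Inf G v ∧
    ((IN G X v).encard ≤ 1 ∨ ((IN G X v).encard ≤ 2 ∧ Even (G.neighborSet v).ncard))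

/-- `x` has finite degree and all vertices outside `X` of its component in the subgraph induced by
the vertices of finite degree are light. -/
def Calm (X : Set V) (x : V) : Prop :=
  ¬ Unf.Inf G x ∧ ∀ a ∈ Unf.comp G x, a ∈ X ∨ Light G X a

end UnfL
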