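import Mathlib

/-!
# Prescribed colourings of graphs

Given a countable graph `J`, a set `D` of vertices and a colouring `z` of `D`, there is a colouring
extending `z` on `D` such that every vertex outside `D` with infinitely many neighbours has
infinitely many neighbours of the other colour.
-/

set_option autoImplicit false

namespace UnfL

open Classical

variable {V : Type*}

/-- Generic part: all vertices. -/
theorem generic_col [Countable V] (J : SimpleGraph V) :
    ∃ f : V → Bool, ∀ u, (J.neighborSet u).Infinite → {y | J.Adj u y ∧ f y ≠ f u}.Infinite := by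
  let O : {u : V // (J.neighborSet u).Infinite} × Finset V → Set (V → Bool) := fun p =>
    ⋃ y ∈ {y : V | J.Adj p.1.1 y ∧ y ∉ p.2}, {f | f y ≠ f p.1.1}
  have hO : ∀ p, IsOpen (O p) := by
    intro p
    refine isOpen_biUnion fun y _ => ?_
    have : {f : V → Bool | f y ≠ f p.1.1} = (fun f : V → Bool => (f y, f p.1.1)) ⁻¹'
        {q : Bool × Bool | q.1 ≠ q.2} := rfl
    rw [this]
    exact (isOpen_discrete _).preimage ((continuous_apply y).prodMk (continuous_apply p.1.1))
  have hD : ∀ p, Dense (O p) := by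
    intro p
    rw [dense_iff_inter_open]
    rintro U hU ⟨f, hf⟩
    obtain ⟨I, w, hw, hsub⟩ := isOpen_pi_iff.1 hU f hf
    have hinf : (J.neighborSet p.1.1 \ (↑p.2 ∪ ↑I : Set V)).Infinite :=
      p.1.2.sdiff (p.2.finite_toSet.union I.finite_toSet)
    obtain ⟨y, hy, hyn⟩ := hinf.nonempty
    rw [Set.mem_union, not_or] at hyn
    have hyu : y ≠ p.1.1 := by
      rintro rfl
      exact J.loopless.irrefl _ hy
    refine ⟨Function.update f y (!(f p.1.1)), hsub ?_, ?_⟩
    · rw [Set.mem_pi]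
      intro i hi
      have hiy : i ≠ y := by
        rintro rfl
        exact hyn.2 hi
      rw [Function.update_of_ne hiy]
      exact (hw i hi).2
    · refine Set.mem_biUnion (show y ∈ {y : V | J.Adj p.1.1 y ∧ y ∉ p.2} from
        ⟨hy, fun h => hyn.1 h⟩) ?_
      show Function.update f y (!(f p.1.1)) y ≠ Function.update f y (!(f p.1.1)) p.1.1
      rw [Function.update_self, Function.update_of_ne hyu.symm]
      cases f p.1.1 <;> simp
  have hBaire : BaireSpace (V → Bool) := inferInstance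
  obtain ⟨f, hf⟩ := (dense_iInter_of_isOpen hO hD).nonempty
  rw [Set.mem_iInter] at hf
  refine ⟨f, fun u hu hfin => ?_⟩
  have h := hf (⟨u, hu⟩, hfin.toFinset)
  simp only [O, Set.mem_iUnion] at h
  obtain ⟨y, ⟨hy1, hy2⟩, hy3⟩ := h
  exact hy2 ((Set.Finite.mem_toFinset hfin).2 ⟨hy1, hy3⟩)

/-- Good partial colourings. -/
def GoodP (J : SimpleGraph V) (D : Set V) (z : V → Bool) (S : Set V) (τ : V → Bool) : Prop :=
  D ⊆ S ∧ (∀ v ∈ D, τ v = z v) ∧ ∀ u ∈ S, u ∉ D → {y | y ∈ S ∧ J.Adj u y ∧ τ y ≠ τ u}.Infinite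

theorem exists_max_goodP (J : SimpleGraph V) (D : Set V) (z : V → Bool) :
    ∃ S τ, GoodP J D z S τ ∧ ∀ S' τ', GoodP J D z S' τ' → S ⊆ S' → (∀ v ∈ S, τ' v = τ v) →
      S' ⊆ S := by
  let α := {p : Set V × (V → Bool) // GoodP J D z p.1 p.2}
  let r : α → α → Prop := fun p q => p.1.1 ⊆ q.1.1 ∧ ∀ v ∈ p.1.1, q.1.2 v = p.1.2 v
  have hz : ∃ m : α, ∀ a, r m a → r a m := by
    refine exists_maximal_of_chains_bounded (r := r) ?_ ?_
    · intro C hC
      rcases C.eq_empty_or_nonempty with rfl | hCne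
      · exact ⟨⟨(D, z), subset_rfl, fun _ _ => rfl, fun u h1 h2 => absurd h1 h2⟩, by simp⟩
      set S : Set V := ⋃ p ∈ C, p.1.1 with hS
      let τ : V → Bool := fun v => if h : ∃ p ∈ C, v ∈ p.1.1 then h.choose.1.2 v else false
      have hτ : ∀ p ∈ C, ∀ v ∈ p.1.1, τ v = p.1.2 v := by
        intro p hp v hv
        have h : ∃ p ∈ C, v ∈ p.1.1 := ⟨p, hp, hv⟩
        have e : τ v = h.choose.1.2 v := dif_pos h
        rw [e]
        have h1 := h.choose_spec
        by_cases hpq : h.choose = p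
        · rw [hpq]
        · rcases hC h1.1 hp hpq with h2 | h2
          · exact (h2.2 v h1.2).symm
          · exact h2.2 v hv
      have hsub : ∀ p ∈ C, p.1.1 ⊆ S := fun p hp =>
        Set.subset_biUnion_of_mem (u := fun p : α => p.1.1) hp
      have hmem : ∀ v ∈ S, ∃ p ∈ C, v ∈ p.1.1 := fun v hv => by simpa [hS] using hv
      refine ⟨⟨(S, τ), ?_, ?_, ?_⟩, fun p hp => ⟨hsub p hp, hτ p hp⟩⟩
      · obtain ⟨p, hp⟩ := hCne
        exact p.2.1.trans (hsub p hp)
      · intro v hv
        obtain ⟨p, hp⟩ := hCne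
        exact (hτ p hp v (p.2.1 hv)).trans (p.2.2.1 v hv)
      · intro u hu huD
        obtain ⟨p, hp, hpu⟩ := hmem u hu
        refine (p.2.2.2 u hpu huD).mono ?_
        rintro y ⟨hy1, hy2, hy3⟩
        refine ⟨hsub p hp hy1, hy2, ?_⟩
        show τ y ≠ τ u
        rw [hτ p hp y hy1, hτ p hp u hpu]
        exact hy3
    · intro a b c hab hbc
      exact ⟨hab.1.trans hbc.1, fun v hv => (hbc.2 v (hab.1 hv)).trans (hab.2 v hv)⟩
  obtain ⟨m, hm⟩ := hz
  exact ⟨m.1.1, m.1.2, m.2, fun S' τ' h1 h2 h3 => (hm ⟨(S', τ'), h1⟩ ⟨h2, h3⟩).1⟩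

theorem prescribed_col [Countable V] (J : SimpleGraph V) (D : Set V) (z : V → Bool) :
    ∃ f : V → Bool, (∀ v ∈ D, f v = z v) ∧
      ∀ u, u ∉ D → (J.neighborSet u).Infinite → {y | J.Adj u y ∧ f y ≠ f u}.Infinite := by
  obtain ⟨S, τ, hG, hmax⟩ := exists_max_goodP J D z
  have hfin : ∀ u, u ∉ S → {y | y ∈ S ∧ J.Adj u y}.Finite := by
    intro u huS
    by_contra hinf
    have key : ∀ i : Bool, {y | y ∈ S ∧ J.Adj u y ∧ τ y = i}.Finite := by
      intro i
      by_contra hi
      have hup : ∀ w ∈ S, Function.update τ u (!i) w = τ w := fun w hw => by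
        refine Function.update_of_ne ?_ _ _
        rintro rfl
        exact huS hw
      have := hmax (insert u S) (Function.update τ u (!i)) ⟨?_, ?_, ?_⟩ (Set.subset_insert _ _) hup
      · exact huS (this (Set.mem_insert _ _))
      · exact hG.1.trans (Set.subset_insert _ _)
      · intro v hv
        rw [hup v (hG.1 hv)]
        exact hG.2.1 v hv
      · intro w hw hwD
        rcases hw with rfl | hw
        · refine Set.Infinite.mono ?_ hi
          rintro y ⟨hy1, hy2, hy3⟩
          refine ⟨Set.mem_insert_of_mem _ hy1, hy2, ?_⟩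
          rw [hup y hy1, Function.update_self, hy3]
          cases i <;> simp
        · refine (hG.2.2 w hw hwD).mono ?_
          rintro y ⟨hy1, hy2, hy3⟩
          refine ⟨Set.mem_insert_of_mem _ hy1, hy2, ?_⟩
          rw [hup y hy1, hup w hw]
          exact hy3
    refine hinf (((key true).union (key false)).subset ?_)
    rintro y ⟨hy1, hy2⟩
    cases hy : τ y
    · exact Or.inr ⟨hy1, hy2, hy⟩
    · exact Or.inl ⟨hy1, hy2, hy⟩
  let J' : SimpleGraph V :=
    { Adj := fun a b => J.Adj a b ∧ a ∉ S ∧ b ∉ S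
      symm := ⟨fun a b h => ⟨h.1.symm, h.2.2, h.2.1⟩⟩
      loopless := ⟨fun a h => J.loopless.irrefl a h.1⟩ }
  obtain ⟨g, hg⟩ := generic_col J'
  refine ⟨fun v => if v ∈ S then τ v else g v, fun v hv => ?_, fun u huD hu => ?_⟩
  · simp only [if_pos (hG.1 hv)]
    exact hG.2.1 v hv
  · by_cases huS : u ∈ S
    · refine (hG.2.2 u huS huD).mono ?_
      rintro y ⟨hy1, hy2, hy3⟩
      refine ⟨hy2, ?_⟩
      simp only [if_pos hy1, if_pos huS]
      exact hy3
    · have h1 : (J'.neighborSet u).Infinite := by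
        refine (hu.sdiff (hfin u huS)).mono ?_
        rintro y ⟨hy1, hy2⟩
        have hy1' : J.Adj u y := hy1
        refine (show J'.Adj u y from ⟨hy1', huS, fun hyS => hy2 ⟨hyS, hy1'⟩⟩)
      refine (hg u h1).mono ?_
      rintro y ⟨⟨hy1, _, hy2⟩, hy3⟩
      refine ⟨hy1, ?_⟩
      simp only [if_neg hy2, if_neg huS]
      exact hy3

end UnfL
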