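import Pool.Agent.Work.MP_1aab6d_co.Total

/-!
# Bounded perturbations and maximal relaxations of strong colourings
-/

set_option autoImplicit false

namespace UnfL

open Finset Classical Unf

variable {V : Type*} {G : SimpleGraph V}

/-- A colouring with bounded defect can be repaired on a finite set of vertices of finite degree. -/
theorem fix_bdd {c : V → Bool} (M : ℤ)
    (h : ∀ Q : Finset V, (∀ x ∈ Q, ¬ Inf G x) → -M ≤ en G (eps Set.univ c) Q) :
    ∃ Q : Finset V, (∀ x ∈ Q, ¬ Inf G x) ∧ TM G (flp c Q) := by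
  obtain ⟨m, ⟨Q, hQ, hQm⟩, hmin⟩ := Int.exists_least_of_bdd
    (P := fun z => ∃ Q : Finset V, (∀ x ∈ Q, ¬ Inf G x) ∧ en G (eps Set.univ c) Q = z)
    ⟨-M, by rintro z ⟨Q, hQ, rfl⟩; exact h Q hQ⟩ ⟨_, ∅, by simp, rfl⟩
  refine ⟨Q, hQ, fun Q' hQ' => ?_⟩
  have hQ'' : ∀ x ∈ Q', ¬ Inf G x := fun x hx => (hQ' x hx).2
  rw [en_flp c Q Q' hQ hQ'', hQm]
  have := hmin _ ⟨symmDiff Q Q', ?_, rfl⟩
  · linarith
  · intro x hx
    rw [Finset.mem_symmDiff] at hx
    rcases hx with hx | hx
    · exact hQ x hx.1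
    · exact hQ'' x hx.1

lemma isClosed_TM (G : SimpleGraph V) : IsClosed {c : V → Bool | TM G c} := by
  have : {c : V → Bool | TM G c}
      = ⋂ Q ∈ {Q : Finset V | ∀ x ∈ Q, x ∈ Set.univ ∧ ¬ Inf G x}, {c | 0 ≤ en G (eps Set.univ c) Q} := by
    ext c
    simp only [Set.mem_iInter, Set.mem_ofPred_eq]
    exact ⟨fun h Q hQ => h Q hQ, fun h Q hQ => h Q hQ⟩
  rw [this]
  exact isClosed_biInter fun Q _ => isClosed_le continuous_const (continuous_en Q)

/-- Flip the colours on a set. -/
noncomputable def flpS (c : V → Bool) (R : Set V) : V → Bool := fun v => if v ∈ R then !(c v) else c v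

lemma flpS_of_mem {c : V → Bool} {R : Set V} {v : V} (h : v ∈ R) : flpS c R v = !(c v) := if_pos h

lemma flpS_of_not_mem {c : V → Bool} {R : Set V} {v : V} (h : v ∉ R) : flpS c R v = c v := if_neg h

lemma flp_flpS (c : V → Bool) (R : Set V) {v : V} (hv : v ∉ R) :
    flp (flpS c R) {v} = flpS c (insert v R) := by
  funext w
  by_cases hw : w = v
  · subst hw
    rw [flp_of_mem (Finset.mem_singleton_self w), flpS_of_not_mem hv,
      flpS_of_mem (Set.mem_insert w R)]
  · rw [flp_of_not_mem (by simpa using hw)]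
    by_cases hwR : w ∈ R
    · rw [flpS_of_mem hwR, flpS_of_mem (Set.mem_insert_of_mem _ hwR)]
    · rw [flpS_of_not_mem hwR, flpS_of_not_mem (fun h => h.elim hw hwR)]

/-- Strongness is a local property. -/
lemma TM.of_local {c : V → Bool} (h : ∀ T : Finset V, ∃ c', TM G c' ∧ ∀ v ∈ T, c' v = c v) :
    TM G c := by
  intro Q hQ
  obtain ⟨c', h1, h2⟩ := h (Q ∪ Q.biUnion (fun x => nb G x))
  refine (h1 Q hQ).trans (le_of_eq (en_congr fun x hx y hy _ => ?_))
  have hx' : c' x = c x := h2 x (mem_union_left _ hx)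
  have hy' : c' y = c y := h2 y (mem_union_right _ (mem_biUnion.2 ⟨x, hx, hy⟩))
  unfold eps
  rw [hx', hy']

/-- Flipping a vertex at no cost. -/
theorem TM.flip_zero {c : V → Bool} (hc : TM G c) {v : V} (hv : ¬ Inf G v)
    (h0 : en G (eps Set.univ c) {v} = 0) : TM G (flp c {v}) := by
  intro Q hQ
  have hQ' : ∀ x ∈ Q, ¬ Inf G x := fun x hx => (hQ x hx).2
  have hv' : ∀ x ∈ ({v} : Finset V), ¬ Inf G x := by simpa using hv
  rw [en_flp c {v} Q hv' hQ', h0, sub_zero]
  refine hc _ fun x hx => ⟨Set.mem_univ _, ?_⟩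
  rw [Finset.mem_symmDiff] at hx
  rcases hx with hx | hx
  · exact hv' x hx.1
  · exact hQ' x hx.1

/-- A maximal relaxation. -/
theorem exists_relaxed {c0 : V → Bool} (hc0 : TM G c0) (A : Set V) :
    ∃ R, R ⊆ A ∧ TM G (flpS c0 R) ∧
      ∀ v ∈ A, v ∉ R → ¬ Inf G v → en G (eps Set.univ (flpS c0 R)) {v} ≠ 0 := by
  obtain ⟨R, -, hR⟩ := zorn_subset_nonempty {R : Set V | R ⊆ A ∧ TM G (flpS c0 R)} (by
    intro C hC hchain hne
    refine ⟨⋃₀ C, ⟨Set.sUnion_subset fun R hR => (hC hR).1, ?_⟩,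
      fun s hs => Set.subset_sUnion_of_mem hs⟩
    refine TM.of_local fun T => ?_
    have key : ∀ T : Finset V, ∃ R ∈ C, ∀ v ∈ T, v ∈ ⋃₀ C → v ∈ R := by
      intro T
      induction T using Finset.induction_on with
      | empty => obtain ⟨R, hR⟩ := hne; exact ⟨R, hR, by simp⟩
      | insert a T ha ih =>
        obtain ⟨R, hR, hRT⟩ := ih
        by_cases haC : a ∈ ⋃₀ C
        · obtain ⟨R', hR', haR'⟩ := haC
          rcases hchain.total hR hR' with h | h
          · refine ⟨R', hR', fun v hv hvC => ?_⟩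
            rcases Finset.mem_insert.1 hv with rfl | hv
            · exact haR'
            · exact h (hRT v hv hvC)
          · refine ⟨R, hR, fun v hv hvC => ?_⟩
            rcases Finset.mem_insert.1 hv with rfl | hv
            · exact h haR'
            · exact hRT v hv hvC
        · refine ⟨R, hR, fun v hv hvC => ?_⟩
          rcases Finset.mem_insert.1 hv with rfl | hv
          · exact absurd hvC haC
          · exact hRT v hv hvC
    obtain ⟨R, hR, hRT⟩ := key T
    refine ⟨flpS c0 R, (hC hR).2, fun v hv => ?_⟩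
    by_cases hvC : v ∈ ⋃₀ C
    · rw [flpS_of_mem hvC, flpS_of_mem (hRT v hv hvC)]
    · rw [flpS_of_not_mem hvC, flpS_of_not_mem (fun h => hvC ⟨R, hR, h⟩)]) ∅
    ⟨Set.empty_subset _, by
      have : flpS c0 ∅ = c0 := by funext v; exact flpS_of_not_mem (Set.notMem_empty v)
      rw [this]; exact hc0⟩
  refine ⟨R, hR.1.1, hR.1.2, fun v hv hvR hvI h0 => ?_⟩
  have hmem : insert v R ∈ {R : Set V | R ⊆ A ∧ TM G (flpS c0 R)} := by
    refine ⟨Set.insert_subset hv hR.1.1, ?_⟩
    rw [← flp_flpS c0 R hvR]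
    exact TM.flip_zero hR.1.2 hvI h0
  exact hvR (hR.2 hmem (Set.subset_insert _ _) (Set.mem_insert _ _))

lemma en_single (c : V → Bool) (v : V) :
    en G (eps Set.univ c) {v} = ∑ y ∈ nb G v, eps Set.univ c v y := by
  unfold en
  rw [Finset.sum_singleton]
  by_cases hv : Inf G v
  · have : nb G v = ∅ := dif_neg (by simpa [Inf] using hv)
    rw [this]; simp
  · have : nb G v \ {v} = nb G v := by
      ext y
      rw [mem_sdiff, Finset.mem_singleton]
      refine ⟨fun h => h.1, fun h => ⟨h, ?_⟩⟩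
      rintro rfl
      exact G.loopless.irrefl _ ((mem_nb G hv).1 h)
    rw [this]

/-- Unfriendliness from vertex sums. -/
theorem unfriendly_of_sums [Countable V] {c : V → Bool}
    (hF : ∀ v, ¬ Inf G v → 0 ≤ ∑ y ∈ nb G v, eps Set.univ c v y)
    (hI : ∀ u, Inf G u → Happy G c u) : Unfriendly G c := by
  intro v
  by_cases hv : Inf G v
  · have h1 : Infinite {w : V // G.Adj v w ∧ c w ≠ c v} := (hI v hv).to_subtype
    calc Cardinal.mk {w : V // G.Adj v w ∧ c w = c v} ≤ Cardinal.aleph0 := Cardinal.mk_le_aleph0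
      _ ≤ _ := Cardinal.aleph0_le_mk _
  · have h := hF v hv
    have e : ∑ y ∈ nb G v, eps Set.univ c v y
        = ∑ y ∈ nb G v, (if c y ≠ c v then (1 : ℤ) else -1) := by
      refine Finset.sum_congr rfl fun y _ => ?_
      simp [eps]
    rw [e, Finset.sum_ite, Finset.sum_const, Finset.sum_const] at h
    have a1 : Cardinal.mk {w : V // G.Adj v w ∧ c w = c v}
        = (((nb G v).filter (fun y => ¬ c y ≠ c v)).card : Cardinal) := by
      rw [← Cardinal.mk_coe_finset]
      refine Cardinal.mk_congr (Equiv.subtypeEquivRight fun w => ?_)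
      rw [mem_filter, mem_nb G hv]; simp
    have a2 : Cardinal.mk {w : V // G.Adj v w ∧ c w ≠ c v}
        = (((nb G v).filter (fun y => c y ≠ c v)).card : Cardinal) := by
      rw [← Cardinal.mk_coe_finset]
      refine Cardinal.mk_congr (Equiv.subtypeEquivRight fun w => ?_)
      rw [mem_filter, mem_nb G hv]
    rw [a1, a2]
    have : ((nb G v).filter (fun y => ¬ c y ≠ c v)).card
        ≤ ((nb G v).filter (fun y => c y ≠ c v)).card := by
      simp only [nsmul_eq_mul, mul_one, mul_neg] at h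
      omega
    exact_mod_cast this

end UnfL
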