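import Pool.Agent.Work.MP_1aab6d_co_h50.Defs
import Pool.Agent.Work.MP_1aab6d_co_h50.ICol
import Pool.Agent.Work.MP_1aab6d_co_h50.Relax
import Pool.Agent.Work.MP_1aab6d_co.Max

/-!
# The auxiliary graphs
-/

set_option autoImplicit false

namespace UnfL

open Finset Classical Unf

variable {V : Type*}

/-! ### Elementary facts -/

lemma eps_univ (c : V → Bool) (x y : V) :
    eps Set.univ c x y = if c y ≠ c x then 1 else -1 := by simp [eps]

lemma even_sum_eps (c : V → Bool) (v : V) (N : Finset V) :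
    Even (∑ y ∈ N, eps Set.univ c v y) ↔ Even (N.card) := by
  induction N using Finset.induction_on with
  | empty => simp
  | insert a N ha ih =>
    rw [Finset.sum_insert ha, Finset.card_insert_of_notMem ha, eps_univ]
    split_ifs
    · rw [add_comm, Int.even_add_one, ih, Nat.even_add_one]
    · rw [neg_add_eq_sub, Int.even_sub_one, ih, Nat.even_add_one]

lemma bool_ne {b : Bool} (h : (!b) = b) : False := by cases b <;> simp at h

section graphs

variable (G : SimpleGraph V) (X : Set V) (φ : V → Bool) (D : Set V) (z : V → Bool)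

/-- The edges between calm vertices and between calm vertices and infinite-degree vertices in
`X`. -/
def H0 : SimpleGraph V where
  Adj a b := G.Adj a b ∧ ((Calm G X a ∧ Calm G X b) ∨ (Calm G X a ∧ Inf G b ∧ b ∈ X) ∨
    (Calm G X b ∧ Inf G a ∧ a ∈ X))
  symm := ⟨fun _ _ h => ⟨h.1.symm, by tauto⟩⟩
  loopless := ⟨fun a h => G.loopless.irrefl a h.1⟩

/-- Condition for keeping an edge. -/
def KB (v u : V) : Prop := Calm G X v → v ∉ X → Inf G u → u ∉ X → (u ∈ D ∧ φ v ≠ z u)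

/-- The graph with the kept edges. -/
def G1 : SimpleGraph V where
  Adj a b := G.Adj a b ∧ KB G X φ D z a b ∧ KB G X φ D z b a
  symm := ⟨fun _ _ h => ⟨h.1.symm, h.2.2, h.2.1⟩⟩
  loopless := ⟨fun a h => G.loopless.irrefl a h.1⟩

/-- The graph with the kept edges except those between calm vertices in `X` and vertices of
infinite degree outside `X`. -/
def G0 : SimpleGraph V where
  Adj a b := (G1 G X φ D z).Adj a b ∧ ¬ (a ∈ X ∧ Calm G X a ∧ Inf G b ∧ b ∉ X) ∧
    ¬ (b ∈ X ∧ Calm G X b ∧ Inf G a ∧ a ∉ X)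
  symm := ⟨fun _ _ h => ⟨h.1.symm, h.2.2, h.2.1⟩⟩
  loopless := ⟨fun a h => (G1 G X φ D z).loopless.irrefl a h.1⟩

end graphs

variable {G : SimpleGraph V} {X : Set V}

lemma Calm.of_adj {x y : V} (hx : Calm G X x) (hxy : G.Adj x y) (hy : ¬ Inf G y) :
    Calm G X y := by
  have h : y ∈ comp G x := Relation.ReflTransGen.single ⟨hxy, hy, Set.notMem_empty _⟩
  refine ⟨hy, fun a ha => hx.2 a ?_⟩
  rw [comp_eq hx.1 h] at ha
  exact ha

lemma Calm.light {x : V} (hx : Calm G X x) (hX : x ∉ X) : Light G X x :=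
  (hx.2 x (mem_comp_self x)).resolve_left hX

lemma Inf.of_le {G' : SimpleGraph V} (hle : ∀ a b, G'.Adj a b → G.Adj a b) {v : V}
    (h : Inf G' v) : Inf G v := Set.Infinite.mono (fun y hy => hle v y hy) h

/-- The set `D`. -/
def DD (G : SimpleGraph V) (X : Set V) : Set V :=
  {u | Inf G u ∧ u ∉ X ∧ {x | G.Adj u x ∧ Calm G X x}.Infinite}

variable {φ z : V → Bool}

/-- The infinite-degree vertices of the graph with the kept edges. -/
lemma inf_G0
    (hz : ∀ u ∈ DD G X, {x | G.Adj u x ∧ Calm G X x ∧ x ∉ X ∧ φ x ≠ z u}.Infinite) {u : V}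
    (hu : Inf G u) : Inf (G0 G X φ (DD G X) z) u := by
  by_cases huX : u ∈ X
  · refine Set.Infinite.mono ?_ hu
    intro x hx
    have hx' : G.Adj u x := hx
    refine ⟨⟨hx', fun hc _ _ _ => absurd hu hc.1, fun _ _ _ hn => absurd huX hn⟩, ?_, ?_⟩
    · rintro ⟨_, hc, _⟩
      exact hc.1 hu
    · rintro ⟨_, _, _, hn⟩
      exact hn huX
  by_cases hD : u ∈ DD G X
  · refine Set.Infinite.mono ?_ (hz u hD)
    rintro x ⟨h1, h2, h3, h4⟩
    refine ⟨⟨h1, ?_, ?_⟩, ?_, ?_⟩
    · intro hc _ _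
      exact absurd hu hc.1
    · intro _ _ _ _
      exact ⟨hD, h4⟩
    · rintro ⟨_, hc, _⟩
      exact hc.1 hu
    · rintro ⟨hxX, _, _⟩
      exact h3 hxX
  · have hfin : {x | G.Adj u x ∧ Calm G X x}.Finite := by
      by_contra hinf
      exact hD ⟨hu, huX, hinf⟩
    refine Set.Infinite.mono ?_ (Set.Infinite.sdiff hu hfin)
    rintro x ⟨h1, h2⟩
    have h1' : G.Adj u x := h1
    have hx : ¬ Calm G X x := fun hc => h2 ⟨h1', hc⟩
    refine ⟨⟨h1', ?_, ?_⟩, ?_, ?_⟩
    · intro hc _ _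
      exact absurd hu hc.1
    · intro hc _ _
      exact absurd hc hx
    · rintro ⟨_, hc, _⟩
      exact hc.1 hu
    · rintro ⟨_, hc, _⟩
      exact hx hc

lemma FS_empty (G : SimpleGraph V) (ρ : V → Bool) : FS G ∅ ρ := by
  intro Q hQ
  have : Q = ∅ := by
    rw [Finset.eq_empty_iff_forall_notMem]
    intro x hx
    exact (hQ x hx).1
  rw [this, en_empty]

lemma H0_le (a b : V) (h : (H0 G X).Adj a b) : G.Adj a b := h.1

/-- The starting partial colouring is strong. -/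
lemma FS_start {zh : V → Bool} (hφ : TM (H0 G X) φ) (hzh : ∀ u ∈ DD G X, zh u = z u)
    (hz : ∀ u ∈ DD G X, {x | G.Adj u x ∧ Calm G X x ∧ x ∉ X ∧ φ x ≠ z u}.Infinite) :
    FS (G0 G X φ (DD G X) z) {v | Inf G v ∨ Calm G X v}
      (fun v => if Calm G X v ∨ (Inf G v ∧ v ∈ X) then φ v else zh v) := by
  intro Q hQ
  set ρ : V → Bool := fun v => if Calm G X v ∨ (Inf G v ∧ v ∈ X) then φ v else zh v with hρ
  set R : Set V := {v | Inf G v ∨ Calm G X v} with hR
  have hQF : ∀ x ∈ Q, ¬ Inf (G0 G X φ (DD G X) z) x := fun x hx => (hQ x hx).2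
  by_cases hall : ∀ x ∈ Q, Calm G X x
  · have hH : ∀ x ∈ Q, ¬ Inf (H0 G X) x := fun x hx h => (hall x hx).1 (Inf.of_le H0_le h)
    refine (hφ Q fun x hx => ⟨Set.mem_univ _, hH x hx⟩).trans ?_
    unfold en
    refine Finset.sum_le_sum fun x hx => ?_
    have hcx := hall x hx
    have hρx : ρ x = φ x := if_pos (Or.inl hcx)
    have h1 : ∑ y ∈ nb (H0 G X) x \ Q, eps Set.univ φ x y
        = ∑ y ∈ nb (H0 G X) x \ Q, eps R ρ x y := by
      refine Finset.sum_congr rfl fun y hy => ?_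
      rw [mem_sdiff, mem_nb _ (hH x hx)] at hy
      have hy2 : Calm G X y ∨ (Inf G y ∧ y ∈ X) := by
        rcases hy.1.2 with h | h | h
        · exact Or.inl h.2
        · exact Or.inr h.2
        · exact Or.inl h.1
      have hyR : y ∈ R := by
        rcases hy2 with h | h
        · exact Or.inr h
        · exact Or.inl h.1
      unfold eps
      rw [hρx, show ρ y = φ y from if_pos hy2]
      simp only [hyR, Set.mem_univ]
    rw [h1]
    refine Finset.sum_le_sum_of_subset_of_nonneg ?_ ?_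
    · intro y hy
      rw [mem_sdiff, mem_nb _ (hH x hx)] at hy
      rw [mem_sdiff, mem_nb _ (hQF x hx)]
      obtain ⟨⟨ha, hb⟩, hd⟩ := hy
      have hy2 : Calm G X y ∨ (Inf G y ∧ y ∈ X) := by
        rcases hb with h | h | h
        · exact Or.inl h.2
        · exact Or.inr h.2
        · exact Or.inl h.1
      refine ⟨⟨⟨ha, ?_, ?_⟩, ?_, ?_⟩, hd⟩
      · intro _ _ hi hn
        rcases hy2 with h | h
        · exact absurd hi h.1
        · exact absurd h.2 hn
      · intro _ _ hi _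
        exact absurd hi hcx.1
      · rintro ⟨_, _, hi, hn⟩
        rcases hy2 with h | h
        · exact h.1 hi
        · exact hn h.2
      · rintro ⟨_, _, hi, _⟩
        exact hcx.1 hi
    · intro y hy hyn
      rw [mem_sdiff, mem_nb _ (hQF x hx)] at hy
      rw [mem_sdiff, mem_nb _ (hH x hx)] at hyn
      obtain ⟨⟨⟨ha, hb, hc⟩, hd, he⟩, hf⟩ := hy
      have hyI : Inf G y := by
        by_contra hyI
        exact hyn ⟨⟨ha, Or.inl ⟨hcx, hcx.of_adj ha hyI⟩⟩, hf⟩
      have hyX : y ∉ X := fun hyX => hyn ⟨⟨ha, Or.inr (Or.inl ⟨hcx, hyI, hyX⟩)⟩, hf⟩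
      have hxX : x ∉ X := fun hxX => hd ⟨hxX, hcx, hyI, hyX⟩
      obtain ⟨hyD, hne⟩ := hb hcx hxX hyI hyX
      have hρy : ρ y = z y := by
        rw [hρ]
        simp only
        rw [if_neg, hzh y hyD]
        rintro (h | h)
        · exact h.1 hyI
        · exact hyX h.2
      rw [eps_eq_one (show y ∈ R from Or.inl hyI)]
      · norm_num
      · rw [hρx, hρy]
        exact fun h => hne h.symm
  · exfalso
    push Not at hall
    obtain ⟨x, hx, hxc⟩ := hall
    rcases (hQ x hx).1 with h | h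
    · exact hQF x hx (inf_G0 hz h)
    · exact hxc h

lemma G0_le (a b : V) (h : (G0 G X φ (DD G X) z).Adj a b) : (G1 G X φ (DD G X) z).Adj a b := h.1

lemma G1_le (a b : V) (h : (G1 G X φ (DD G X) z).Adj a b) : G.Adj a b := h.1

lemma inf_G1_iff
    (hz : ∀ u ∈ DD G X, {x | G.Adj u x ∧ Calm G X x ∧ x ∉ X ∧ φ x ≠ z u}.Infinite) {u : V} :
    Inf (G1 G X φ (DD G X) z) u ↔ Inf G u :=
  ⟨fun h => Inf.of_le G1_le h, fun h => Inf.of_le G0_le (inf_G0 hz h)⟩

lemma inf_G0_iff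
    (hz : ∀ u ∈ DD G X, {x | G.Adj u x ∧ Calm G X x ∧ x ∉ X ∧ φ x ≠ z u}.Infinite) {u : V} :
    Inf (G0 G X φ (DD G X) z) u ↔ Inf G u :=
  ⟨fun h => Inf.of_le (fun a b h => G1_le a b (G0_le a b h)) h, fun h => inf_G0 hz h⟩

/-- The bounded defect. -/
lemma defect (hX : X.Finite) {c : V → Bool}
    (hz : ∀ u ∈ DD G X, {x | G.Adj u x ∧ Calm G X x ∧ x ∉ X ∧ φ x ≠ z u}.Infinite)
    (hc : TM (G0 G X φ (DD G X) z) c) (Q : Finset V)
    (hQ : ∀ x ∈ Q, ¬ Inf (G1 G X φ (DD G X) z) x) :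
    -(∑ x ∈ hX.toFinset, ((nb G x).card : ℤ)) ≤ en (G1 G X φ (DD G X) z) (eps Set.univ c) Q := by
  have hQG : ∀ x ∈ Q, ¬ Inf G x := fun x hx h => hQ x hx ((inf_G1_iff hz).2 h)
  have hQ0 : ∀ x ∈ Q, ¬ Inf (G0 G X φ (DD G X) z) x := fun x hx h =>
    hQG x hx ((inf_G0_iff hz).1 h)
  have h0 := hc Q fun x hx => ⟨Set.mem_univ _, hQ0 x hx⟩
  have key : ∀ x ∈ Q, ∑ y ∈ nb (G0 G X φ (DD G X) z) x \ Q, eps Set.univ c x y
      - (if x ∈ X then ((nb G x).card : ℤ) else 0)
      ≤ ∑ y ∈ nb (G1 G X φ (DD G X) z) x \ Q, eps Set.univ c x y := by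
    intro x hx
    have hsub : nb (G0 G X φ (DD G X) z) x \ Q ⊆ nb (G1 G X φ (DD G X) z) x \ Q := by
      intro y hy
      rw [mem_sdiff, mem_nb _ (hQ0 x hx)] at hy
      rw [mem_sdiff, mem_nb _ (hQ x hx)]
      exact ⟨G0_le _ _ hy.1, hy.2⟩
    rw [← Finset.sum_sdiff hsub]
    have h1 : -(if x ∈ X then ((nb G x).card : ℤ) else 0) ≤
        ∑ y ∈ (nb (G1 G X φ (DD G X) z) x \ Q) \ (nb (G0 G X φ (DD G X) z) x \ Q),
          eps Set.univ c x y := by
      split_ifs with hxX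
      · have h2 : ∑ _y ∈ (nb (G1 G X φ (DD G X) z) x \ Q) \ (nb (G0 G X φ (DD G X) z) x \ Q),
            (-1 : ℤ) ≤ ∑ y ∈ (nb (G1 G X φ (DD G X) z) x \ Q) \
              (nb (G0 G X φ (DD G X) z) x \ Q), eps Set.univ c x y :=
          Finset.sum_le_sum fun y _ => neg_one_le_eps _ _ _ _
        refine le_trans ?_ h2
        rw [Finset.sum_const, nsmul_eq_mul, mul_neg, mul_one, neg_le_neg_iff]
        norm_cast
        refine Finset.card_le_card fun y hy => ?_
        rw [mem_sdiff, mem_sdiff, mem_nb _ (hQ x hx)] at hy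
        rw [mem_nb _ (hQG x hx)]
        exact G1_le _ _ hy.1.1
      · rw [neg_zero]
        refine le_of_eq (Finset.sum_eq_zero fun y hy => ?_).symm
        exfalso
        rw [mem_sdiff, mem_sdiff, mem_sdiff, mem_nb _ (hQ x hx), mem_nb _ (hQ0 x hx)] at hy
        refine hy.2 ⟨⟨hy.1.1, ?_, ?_⟩, hy.1.2⟩
        · rintro ⟨h, _⟩
          exact hxX h
        · rintro ⟨_, _, h, _⟩
          exact hQG x hx h
    linarith
  have h3 := Finset.sum_le_sum key
  rw [Finset.sum_sub_distrib] at h3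
  have h4 : ∑ x ∈ Q, (if x ∈ X then ((nb G x).card : ℤ) else 0)
      ≤ ∑ x ∈ hX.toFinset, ((nb G x).card : ℤ) := by
    rw [← Finset.sum_filter]
    refine Finset.sum_le_sum_of_subset_of_nonneg ?_ ?_
    · intro x hx
      rw [mem_filter] at hx
      exact hX.mem_toFinset.2 hx.2
    · intro x _ _
      positivity
  unfold en at h0 ⊢
  linarith

/-- Sums at a light vertex. -/
lemma light_sum {c : V → Bool} {v : V} {N N1 : Finset V} (hsub : N1 ⊆ N) {B : Finset V}
    (hB : ∀ y ∈ N, y ∉ N1 → y ∈ B) (hlight : B.card ≤ 1 ∨ (B.card ≤ 2 ∧ Even N.card))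
    (he : 0 ≤ ∑ y ∈ N1, eps Set.univ c v y) :
    ((∃ u ∈ B, c u ≠ c v) → 0 ≤ ∑ y ∈ N, eps Set.univ c v y) ∧
    ((∀ u ∈ B, c u ≠ c v) → 0 ≤ ∑ y ∈ N, eps Set.univ c v y) ∧
    ((∀ u ∈ B, c u = c v) → (∑ y ∈ N, eps Set.univ c v y < 0) →
      ∑ y ∈ N1, eps Set.univ c v y = 0) := by
  have hsplit : ∑ y ∈ N, eps Set.univ c v y
      = ∑ y ∈ N \ N1, eps Set.univ c v y + ∑ y ∈ N1, eps Set.univ c v y :=
    (Finset.sum_sdiff hsub).symm
  have hDB : N \ N1 ⊆ B := fun y hy => hB y (mem_sdiff.1 hy).1 (mem_sdiff.1 hy).2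
  have hcard : (N \ N1).card ≤ B.card := Finset.card_le_card hDB
  have hge : -((N \ N1).card : ℤ) ≤ ∑ y ∈ N \ N1, eps Set.univ c v y := by
    have : ∑ _y ∈ N \ N1, (-1 : ℤ) ≤ ∑ y ∈ N \ N1, eps Set.univ c v y :=
      Finset.sum_le_sum fun y _ => neg_one_le_eps _ _ _ _
    simpa using this
  have hev := even_sum_eps c v N
  refine ⟨?_, ?_, ?_⟩
  · rintro ⟨u, huB, hu⟩
    -- the sum over `N \ N1` is at least `-(B.card - 1)`
    have h1 : -((B.card : ℤ) - 1) ≤ ∑ y ∈ N \ N1, eps Set.univ c v y := by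
      by_cases huN : u ∈ N \ N1
      · rw [← Finset.add_sum_erase _ _ huN, eps_univ, if_pos hu]
        have h2 : ∑ _y ∈ (N \ N1).erase u, (-1 : ℤ)
            ≤ ∑ y ∈ (N \ N1).erase u, eps Set.univ c v y :=
          Finset.sum_le_sum fun y _ => neg_one_le_eps _ _ _ _
        rw [Finset.sum_const, nsmul_eq_mul, mul_neg, mul_one, Finset.card_erase_of_mem huN] at h2
        have h3 : 0 < (N \ N1).card := Finset.card_pos.2 ⟨u, huN⟩
        push_cast [Nat.cast_sub (Nat.succ_le_of_lt h3)] at h2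
        have : ((N \ N1).card : ℤ) ≤ B.card := by exact_mod_cast hcard
        omega
      · have h2 : (N \ N1).card ≤ (B.erase u).card := by
          refine Finset.card_le_card fun y hy => ?_
          rw [Finset.mem_erase]
          exact ⟨fun h => huN (h ▸ hy), hDB hy⟩
        rw [Finset.card_erase_of_mem huB] at h2
        have h3 : 0 < B.card := Finset.card_pos.2 ⟨u, huB⟩
        omega
    rcases hlight with h | ⟨h, hN⟩
    · have : (B.card : ℤ) ≤ 1 := by exact_mod_cast h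
      linarith
    · have h2 : (B.card : ℤ) ≤ 2 := by exact_mod_cast h
      have h3 := hev.2 hN
      obtain ⟨k, hk⟩ := h3
      omega
  · intro hall
    have h1 : 0 ≤ ∑ y ∈ N \ N1, eps Set.univ c v y := by
      refine Finset.sum_nonneg fun y hy => ?_
      rw [eps_univ, if_pos (hall y (hDB hy))]
      norm_num
    linarith
  · intro hall hneg
    rcases hlight with h | ⟨h, hN⟩
    · have : (B.card : ℤ) ≤ 1 := by exact_mod_cast h
      have : ((N \ N1).card : ℤ) ≤ B.card := by exact_mod_cast hcard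
      omega
    · have h2 : (B.card : ℤ) ≤ 2 := by exact_mod_cast h
      have : ((N \ N1).card : ℤ) ≤ B.card := by exact_mod_cast hcard
      obtain ⟨k, hk⟩ := hev.2 hN
      omega

end UnfL
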