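import Pool.Agent.Work.MP_1aab6d_co_h50.Process

/-!
# Unfriendly partitions of countable graphs with light vertices
-/

set_option autoImplicit false

namespace UnfL

open Finset Classical Unf

variable {V : Type*}

theorem main [Countable V] (G : SimpleGraph V) (X : Set V) (hX : X.Finite)
    (h : {u | Inf G u ∧ ¬ {x | G.Adj u x ∧ (Inf G x ∨ Calm G X x)}.Infinite}.Finite) :
    ∃ c : V → Bool, Unfriendly G c := by
  -- the ground state
  obtain ⟨φ, -, hφ⟩ := exists_total (FS_empty (H0 G X) (fun _ => false))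
  -- colours of the vertices in `DD`
  have hz' : ∀ u : V, ∃ b : Bool, u ∈ DD G X →
      {x | G.Adj u x ∧ Calm G X x ∧ x ∉ X ∧ φ x ≠ b}.Infinite := by
    intro u
    by_cases hu : u ∈ DD G X
    · have h1 : ({x | G.Adj u x ∧ Calm G X x} \ X).Infinite := Set.Infinite.sdiff hu.2.2 hX
      by_contra hcon
      push Not at hcon
      have ht := (hcon true).2
      have hf := (hcon false).2
      refine h1 ((Set.Finite.union ht hf).subset ?_)
      rintro x ⟨⟨h2, h3⟩, h4⟩
      cases hx : φ x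
      · exact Or.inl ⟨h2, h3, h4, by simp [hx]⟩
      · exact Or.inr ⟨h2, h3, h4, by simp [hx]⟩
    · exact ⟨false, fun h => absurd h hu⟩
  choose z hz using hz'
  -- colours of the other vertices of infinite degree
  let J : SimpleGraph V :=
    { Adj := fun a b => G.Adj a b ∧ Inf G a ∧ Inf G b
      symm := ⟨fun _ _ h => ⟨h.1.symm, h.2.2, h.2.1⟩⟩
      loopless := ⟨fun a h => G.loopless.irrefl a h.1⟩ }
  obtain ⟨zh, hzh, hJ⟩ := prescribed_col J (DD G X) z
  obtain ⟨c1, hc1R, hc1⟩ := exists_total (FS_start hφ hzh hz)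
  have hc1φ : ∀ v, Calm G X v → c1 v = φ v := fun v hv => by
    rw [hc1R v (Or.inr hv)]
    exact if_pos (Or.inl hv)
  have hc1z : ∀ v, Inf G v → v ∉ X → c1 v = zh v := fun v hv hvX => by
    rw [hc1R v (Or.inl hv)]
    exact if_neg (by
      rintro (hc | hc)
      · exact hc.1 hv
      · exact hvX hc.2)
  -- add the missing edges
  obtain ⟨Q2, hQ2, hc2⟩ := fix_bdd _ (defect hX hz hc1)
  set c2 := flp c1 Q2 with hc2def
  have hQ2G : ∀ x ∈ Q2, ¬ Inf G x := fun x hx h => hQ2 x hx ((inf_G1_iff hz).2 h)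
  -- the exceptional vertices
  have hEfin : ({u | Inf G u ∧ ¬ {x | G.Adj u x ∧ (Inf G x ∨ Calm G X x)}.Infinite} ∪
      (X ∩ {u | Inf G u})).Finite := h.union (hX.inter_of_left _)
  set E0 : Finset V := hEfin.toFinset with hE0
  have hEmem : ∀ u, u ∈ E0 ↔ (Inf G u ∧ ¬ {x | G.Adj u x ∧ (Inf G x ∨ Calm G X x)}.Infinite) ∨
      (u ∈ X ∧ Inf G u) := by
    intro u
    rw [hE0, Set.Finite.mem_toFinset]
    rfl
  have hE : ∀ w ∈ E0, Inf G w := by
    intro w hw
    rcases (hEmem w).1 hw with h1 | h1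
    · exact h1.1
    · exact h1.2
  have hED : ∀ w ∈ E0, w ∉ DD G X := by
    intro w hw hD
    rcases (hEmem w).1 hw with h1 | h1
    · refine h1.2 (hD.2.2.mono ?_)
      rintro x ⟨h2, h3⟩
      exact ⟨h2, Or.inr h3⟩
    · exact hD.2.1 h1.1
  have hS : Stt G X (G1 G X φ (DD G X) z) E0 c2 := by
    refine ⟨hc2, fun u hu => ?_, fun u hu huD huE => ?_⟩
    · have hu2 : u ∉ Q2 := fun h => hQ2G u h hu.1
      refine Set.Infinite.mono ?_ ((hz u hu).sdiff Q2.finite_toSet)
      rintro x ⟨⟨h1, h2, h3, h4⟩, h5⟩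
      refine ⟨h1, h2, h3, ?_⟩
      rw [hc2def, flp_of_not_mem (by simpa using h5), flp_of_not_mem hu2, hc1φ x h2,
        hc1z u hu.1 hu.2.1, hzh u hu]
      exact h4
    · have hu2 : u ∉ Q2 := fun h => hQ2G u h hu
      have huX : u ∉ X := fun hX' => huE ((hEmem u).2 (Or.inr ⟨hX', hu⟩))
      have hinf : {x | G.Adj u x ∧ (Inf G x ∨ Calm G X x)}.Infinite := by
        by_contra hn
        exact huE ((hEmem u).2 (Or.inl ⟨hu, hn⟩))
      have h1 : {x | G.Adj u x ∧ Calm G X x}.Finite := by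
        by_contra hinf
        exact huD ⟨hu, huX, hinf⟩
      have h2 : (J.neighborSet u).Infinite := by
        refine (Set.Infinite.sdiff hinf h1).mono ?_
        rintro x ⟨⟨h3, h4⟩, h5⟩
        rcases h4 with h4 | h4
        · exact ⟨h3, hu, h4⟩
        · exact absurd ⟨h3, h4⟩ h5
      refine Set.Infinite.mono ?_ ((hJ u huD h2).sdiff hX)
      rintro y ⟨⟨⟨h3, _, h4⟩, h5⟩, h6⟩
      refine ⟨h3, h4, ?_⟩
      rw [hc2def, flp_of_not_mem (fun h => hQ2G y h h4), flp_of_not_mem hu2, hc1z y h4 h6,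
        hc1z u hu huX]
      exact h5
  obtain ⟨c, hc, hrel, hhap⟩ := process hE hED (fun v => inf_G1_iff hz) _ c2 hS le_rfl
  refine ⟨c, unfriendly_of_sums ?_ ?_⟩
  · intro v hv
    have hv1 : ¬ Inf (G1 G X φ (DD G X) z) v := fun h => hv ((inf_G1_iff hz).1 h)
    have he : 0 ≤ ∑ y ∈ nb (G1 G X φ (DD G X) z) v, eps Set.univ c v y := by
      rw [← en_single]
      exact hc.1 {v} (by simpa using hv1)
    have hsub : nb (G1 G X φ (DD G X) z) v ⊆ nb G v := by
      intro y hy
      rw [mem_nb _ hv1] at hy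
      rw [mem_nb _ hv]
      exact hy.1
    by_cases hcalm : Calm G X v ∧ v ∉ X
    · obtain ⟨hcalm, hvX⟩ := hcalm
      have hlight := hcalm.light hvX
      set B : Finset V := (nb G v).filter (fun y => Inf G y ∧ y ∉ X) with hB
      have hBmem : ∀ y, y ∈ B ↔ y ∈ IN G X v := by
        intro y
        rw [hB, mem_filter, mem_nb _ hv]
        rfl
      have hBcard : (IN G X v).encard = (B.card : ℕ∞) := by
        rw [← Set.encard_coe_eq_coe_finsetCard]
        congr 1
        ext y
        rw [Finset.mem_coe, hBmem]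
      have hNcard : (G.neighborSet v).ncard = (nb G v).card := by
        rw [← Set.ncard_coe_finset]
        congr 1
        ext y
        rw [Finset.mem_coe, mem_nb _ hv]
        rfl
      have hl : B.card ≤ 1 ∨ (B.card ≤ 2 ∧ Even (nb G v).card) := by
        rcases hlight.2 with h1 | ⟨h1, h2⟩
        · left
          rw [hBcard] at h1
          exact_mod_cast h1
        · right
          rw [hBcard] at h1
          rw [hNcard] at h2
          exact ⟨by exact_mod_cast h1, h2⟩
      have hBD : ∀ y ∈ nb G v, y ∉ nb (G1 G X φ (DD G X) z) v → y ∈ B := by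
        intro y hy hyn
        rw [mem_nb _ hv] at hy
        rw [mem_nb _ hv1] at hyn
        rw [hBmem]
        by_contra hyB
        refine hyn ⟨hy, fun _ _ hi hn => absurd ⟨hy, hi, hn⟩ hyB,
          fun _ _ hi _ => absurd hi hv⟩
      obtain ⟨s1, s2, s3⟩ := light_sum hsub hBD hl he
      by_cases hvU : v ∈ Unp G X c
      · by_contra hneg
        refine hrel v hvU ?_
        rw [en_single]
        exact s3 (fun u hu => hvU.2.2.2 u ((hBmem u).1 hu)) (not_le.1 hneg)
      · by_cases hex : ∃ u ∈ IN G X v, c u ≠ c v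
        · obtain ⟨u, hu, hne⟩ := hex
          exact s1 ⟨u, (hBmem u).2 hu, hne⟩
        · push Not at hex
          refine s2 fun u hu => ?_
          exact absurd ⟨hcalm, hvX, ⟨u, (hBmem u).1 hu⟩, hex⟩ hvU
    · have heq : nb (G1 G X φ (DD G X) z) v = nb G v := by
        refine subset_antisymm hsub fun y hy => ?_
        rw [mem_nb _ hv] at hy
        rw [mem_nb _ hv1]
        exact ⟨hy, fun h1 h2 _ _ => absurd ⟨h1, h2⟩ hcalm, fun _ _ hi _ => absurd hi hv⟩
      rw [← heq]
      exact he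
  · intro u hu
    by_cases huE : u ∈ E0
    · refine (hhap u huE).mono ?_
      rintro y ⟨h2, h3⟩
      exact ⟨h2.1, h3⟩
    by_cases huD : u ∈ DD G X
    · refine (hc.2.1 u huD).mono ?_
      rintro y ⟨h1, _, _, h4⟩
      exact ⟨h1, h4⟩
    · refine (hc.2.2 u hu huD huE).mono ?_
      rintro y ⟨h1, _, h4⟩
      exact ⟨h1, h4⟩

end UnfL
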