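import Pool.Agent.Work.MP_1aab6d_co_h50.Graphs

/-!
# The finite process: relaxations and flips
-/

set_option autoImplicit false

namespace UnfL

open Finset Classical Unf

variable {V : Type*} {G : SimpleGraph V} {X : Set V}

/-- The calm vertices outside `X` which have neighbours of infinite degree outside `X`, all of
their own colour. -/
def Unp (G : SimpleGraph V) (X : Set V) (c : V → Bool) : Set V :=
  {v | Calm G X v ∧ v ∉ X ∧ (IN G X v).Nonempty ∧ ∀ u ∈ IN G X v, c u = c v}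

/-- States of the process. -/
def Stt (G : SimpleGraph V) (X : Set V) (Γ : SimpleGraph V) (E0 : Finset V) (c : V → Bool) :
    Prop :=
  TM Γ c ∧ (∀ u ∈ DD G X, {v | G.Adj u v ∧ Calm G X v ∧ v ∉ X ∧ c v ≠ c u}.Infinite) ∧
    ∀ u, Inf G u → u ∉ DD G X → u ∉ E0 → {y | G.Adj u y ∧ Inf G y ∧ c y ≠ c u}.Infinite

/-- The weight of an exceptional vertex. -/
noncomputable def wt (G : SimpleGraph V) (X : Set V) (Γ : SimpleGraph V) (c : V → Bool) (w : V) :
    ℕ :=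
  if {y | Γ.Adj w y ∧ y ∉ Unp G X c ∧ c y ≠ c w}.Infinite then 0 else
    if {y | Γ.Adj w y ∧ y ∉ Unp G X c}.Infinite then 1 else
      if {y | Γ.Adj w y ∧ c y = c w}.Finite then 2 else 3

variable {Γ : SimpleGraph V} {c c' : V → Bool}

lemma wt_le_three (w : V) : wt G X Γ c w ≤ 3 := by
  unfold wt; split_ifs <;> norm_num

/-- Transfer of the weight. -/
lemma wt_le_of {w : V}
    (h0 : {y | Γ.Adj w y ∧ y ∉ Unp G X c ∧ c y ≠ c w}.Infinite →
      {y | Γ.Adj w y ∧ y ∉ Unp G X c' ∧ c' y ≠ c' w}.Infinite)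
    (h1 : {y | Γ.Adj w y ∧ y ∉ Unp G X c}.Infinite → {y | Γ.Adj w y ∧ y ∉ Unp G X c'}.Infinite)
    (h2 : {y | Γ.Adj w y ∧ y ∉ Unp G X c'}.Finite → {y | Γ.Adj w y ∧ c y = c w}.Finite →
      {y | Γ.Adj w y ∧ c' y = c' w}.Finite) :
    wt G X Γ c' w ≤ wt G X Γ c w := by
  unfold wt
  by_cases a0 : {y | Γ.Adj w y ∧ y ∉ Unp G X c ∧ c y ≠ c w}.Infinite
  · rw [if_pos a0, if_pos (h0 a0)]
  rw [if_neg a0]
  by_cases b0 : {y | Γ.Adj w y ∧ y ∉ Unp G X c' ∧ c' y ≠ c' w}.Infinite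
  · rw [if_pos b0]; exact Nat.zero_le _
  rw [if_neg b0]
  by_cases a1 : {y | Γ.Adj w y ∧ y ∉ Unp G X c}.Infinite
  · rw [if_pos a1, if_pos (h1 a1)]
  rw [if_neg a1]
  by_cases b1 : {y | Γ.Adj w y ∧ y ∉ Unp G X c'}.Infinite
  · rw [if_pos b1]
    split_ifs <;> norm_num
  rw [if_neg b1]
  by_cases a2 : {y | Γ.Adj w y ∧ c y = c w}.Finite
  · rw [if_pos a2, if_pos (h2 (Set.not_infinite.1 b1) a2)]
  rw [if_neg a2]
  split_ifs <;> norm_num

/-- Relaxation step. -/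
theorem relax_step {E0 : Finset V} (hE : ∀ w ∈ E0, Inf G w)
    (hΓ : ∀ v, Inf Γ v → Inf G v) (h : Stt G X Γ E0 c) :
    ∃ c', Stt G X Γ E0 c' ∧ (∀ v ∈ Unp G X c', en Γ (eps Set.univ c') {v} ≠ 0) ∧
      ∀ w ∈ E0, wt G X Γ c' w ≤ wt G X Γ c w := by
  obtain ⟨R, hRA, hTM, hmax⟩ := exists_relaxed h.1 (Unp G X c)
  have hR : ∀ v ∈ R, Calm G X v := fun v hv => (hRA hv).1
  have hinf : ∀ v, Inf G v → flpS c R v = c v := fun v hv =>
    flpS_of_not_mem fun hvR => (hR v hvR).1 hv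
  have hU : ∀ v, v ∈ Unp G X (flpS c R) ↔ v ∈ Unp G X c ∧ v ∉ R := by
    intro v
    constructor
    · rintro ⟨h1, h2, h3, h4⟩
      obtain ⟨u, hu⟩ := h3
      have hvR : v ∉ R := by
        intro hvR
        have h5 := h4 u hu
        rw [hinf u hu.2.1, flpS_of_mem hvR, (hRA hvR).2.2.2 u hu] at h5
        exact bool_ne h5.symm
      refine ⟨⟨h1, h2, ⟨u, hu⟩, fun u' hu' => ?_⟩, hvR⟩
      have h5 := h4 u' hu'
      rw [hinf u' hu'.2.1, flpS_of_not_mem hvR] at h5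
      exact h5
    · rintro ⟨⟨h1, h2, h3, h4⟩, hvR⟩
      refine ⟨h1, h2, h3, fun u hu => ?_⟩
      rw [hinf u hu.2.1, flpS_of_not_mem hvR]
      exact h4 u hu
  refine ⟨flpS c R, ⟨hTM, fun u hu => ?_, fun u hu huD huE => ?_⟩, fun v hv => ?_,
    fun w hw => ?_⟩
  · refine (h.2.1 u hu).mono ?_
    rintro v ⟨h1, h2, h3, h4⟩
    refine ⟨h1, h2, h3, ?_⟩
    have hvR : v ∉ R := fun hvR => h4 ((hRA hvR).2.2.2 u ⟨h1.symm, hu.1, hu.2.1⟩).symm
    rw [hinf u hu.1, flpS_of_not_mem hvR]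
    exact h4
  · refine (h.2.2 u hu huD huE).mono ?_
    rintro y ⟨h1, h2, h3⟩
    refine ⟨h1, h2, ?_⟩
    rw [hinf u hu, hinf y h2]
    exact h3
  · obtain ⟨h1, h2⟩ := (hU v).1 hv
    exact hmax v h1 h2 fun hI => h1.1.1 (hΓ v hI)
  · have hw' := hinf w (hE w hw)
    refine wt_le_of (fun h0 => h0.mono ?_) (fun h1 => h1.mono ?_) (fun h2 h3 => ?_)
    · rintro y ⟨a1, a2, a3⟩
      refine ⟨a1, fun h => a2 ((hU y).1 h).1, ?_⟩
      rw [hw', flpS_of_not_mem (fun hyR => a2 (hRA hyR))]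
      exact a3
    · rintro y ⟨a1, a2⟩
      exact ⟨a1, fun h => a2 ((hU y).1 h).1⟩
    · refine (h2.union h3).subset ?_
      rintro y ⟨a1, a2⟩
      by_cases hyR : y ∈ R
      · exact Or.inl ⟨a1, fun h => ((hU y).1 h).2 hyR⟩
      · right
        rw [hw', flpS_of_not_mem hyR] at a2
        exact ⟨a1, a2⟩

/-- Flip step. -/
theorem flip_step {E0 : Finset V} (hE : ∀ w ∈ E0, Inf G w) (hED : ∀ w ∈ E0, w ∉ DD G X)
    (hΓ : ∀ v, Inf Γ v ↔ Inf G v) (h : Stt G X Γ E0 c) {w : V} (hw : w ∈ E0)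
    (hun : ¬ Happy Γ c w) :
    ∃ c', Stt G X Γ E0 c' ∧ (∀ w' ∈ E0, w' ≠ w → wt G X Γ c' w' ≤ wt G X Γ c w') ∧
      wt G X Γ c' w < wt G X Γ c w := by
  have hwI := hE w hw
  obtain ⟨Q, hQ, hTM⟩ := amp_flip h.1 ((hΓ w).2 hwI) hun
  set c' := flp (Function.update c w (!(c w))) Q with hc'
  have hQG : ∀ x ∈ Q, ¬ Inf G x := fun x hx h => hQ x hx ((hΓ x).2 h)
  have hwQ : w ∉ Q := fun h => hQG w h hwI
  have hcw : c' w = !(c w) := by rw [hc', flp_of_not_mem hwQ, Function.update_self]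
  have hag : ∀ v, v ∉ Q → v ≠ w → c' v = c v := by
    intro v hv hvw
    rw [hc', flp_of_not_mem hv, Function.update_of_ne hvw]
  have hinf : ∀ v, Inf G v → v ≠ w → c' v = c v := fun v hv hvw =>
    hag v (fun h => hQG v h hv) hvw
  -- the set where something changes
  have hfinw : {x | Calm G X x ∧ w ∈ IN G X x}.Finite := by
    by_cases hwX : w ∈ X
    · convert Set.finite_empty
      ext x
      simp only [Set.mem_ofPred_eq, Set.mem_empty_iff_false, iff_false]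
      rintro ⟨_, _, _, h⟩
      exact h hwX
    · have : {x | G.Adj w x ∧ Calm G X x}.Finite := by
        by_contra hinf
        exact hED w hw ⟨hwI, hwX, hinf⟩
      refine this.subset ?_
      rintro x ⟨h1, h2, _, _⟩
      exact ⟨h2.symm, h1⟩
  set Z : Set V := (↑(insert w Q) : Set V) ∪ {x | Calm G X x ∧ w ∈ IN G X x} with hZ
  have hZf : Z.Finite := (Finset.finite_toSet _).union hfinw
  have hZ1 : ∀ v, v ∉ Z → c' v = c v := by
    intro v hv
    rw [hZ, Set.mem_union, not_or, Finset.mem_coe, Finset.mem_insert, not_or] at hv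
    exact hag v hv.1.2 hv.1.1
  have hZ2 : ∀ v, v ∉ Z → (v ∈ Unp G X c' ↔ v ∈ Unp G X c) := by
    intro v hv
    have hv1 := hZ1 v hv
    have hpet : Calm G X v → ∀ u ∈ IN G X v, c' u = c u := by
      intro hcalm u hu
      refine hinf u hu.2.1 ?_
      rintro rfl
      exact hv (Or.inr ⟨hcalm, hu⟩)
    constructor
    · rintro ⟨h1, h2, h3, h4⟩
      refine ⟨h1, h2, h3, fun u hu => ?_⟩
      rw [← hpet h1 u hu, ← hv1]
      exact h4 u hu
    · rintro ⟨h1, h2, h3, h4⟩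
      refine ⟨h1, h2, h3, fun u hu => ?_⟩
      rw [hpet h1 u hu, hv1]
      exact h4 u hu
  refine ⟨c', ⟨hTM, fun u hu => ?_, fun u hu huD huE => ?_⟩, fun w' hw' hne => ?_, ?_⟩
  · have huw : u ≠ w := by
      rintro rfl
      exact hED u hw hu
    refine Set.Infinite.mono ?_ ((h.2.1 u hu).sdiff hZf)
    rintro v ⟨⟨h1, h2, h3, h4⟩, h5⟩
    refine ⟨h1, h2, h3, ?_⟩
    rw [hinf u hu.1 huw, hZ1 v h5]
    exact h4
  · have huw : u ≠ w := by
      rintro rfl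
      exact huE hw
    refine Set.Infinite.mono ?_ ((h.2.2 u hu huD huE).sdiff hZf)
    rintro y ⟨⟨h1, h2, h3⟩, h5⟩
    refine ⟨h1, h2, ?_⟩
    rw [hinf u hu huw, hZ1 y h5]
    exact h3
  · have hw1 := hinf w' (hE w' hw') hne
    refine wt_le_of (fun h0 => ?_) (fun h1 => ?_) (fun h2 h3 => ?_)
    · refine Set.Infinite.mono ?_ (h0.sdiff hZf)
      rintro y ⟨⟨a1, a2, a3⟩, a4⟩
      refine ⟨a1, fun h => a2 ((hZ2 y a4).1 h), ?_⟩
      rw [hw1, hZ1 y a4]
      exact a3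
    · refine Set.Infinite.mono ?_ (h1.sdiff hZf)
      rintro y ⟨⟨a1, a2⟩, a4⟩
      exact ⟨a1, fun h => a2 ((hZ2 y a4).1 h)⟩
    · refine (h3.union hZf).subset ?_
      rintro y ⟨a1, a2⟩
      by_cases hy : y ∈ Z
      · exact Or.inr hy
      · left
        rw [hw1, hZ1 y hy] at a2
        exact ⟨a1, a2⟩
  · have hUh : {y | Γ.Adj w y ∧ c y ≠ c w}.Finite := Set.not_infinite.1 hun
    have hset : ∀ y, Γ.Adj w y → y ∉ Z ∪ {y | Γ.Adj w y ∧ c y ≠ c w} → c' y ≠ c' w := by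
      intro y hy hyn
      rw [Set.mem_union, not_or] at hyn
      have h1 : c y = c w := by
        by_contra hne
        exact hyn.2 ⟨hy, hne⟩
      rw [hcw, hZ1 y hyn.1, h1]
      exact fun h => bool_ne h.symm
    have h0 : ¬ {y | Γ.Adj w y ∧ y ∉ Unp G X c ∧ c y ≠ c w}.Infinite := by
      refine Set.not_infinite.2 (hUh.subset ?_)
      rintro y ⟨a1, _, a3⟩
      exact ⟨a1, a3⟩
    by_cases h1 : {y | Γ.Adj w y ∧ y ∉ Unp G X c}.Infinite
    · have h2 : {y | Γ.Adj w y ∧ y ∉ Unp G X c' ∧ c' y ≠ c' w}.Infinite := by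
        refine Set.Infinite.mono ?_ (h1.sdiff (hZf.union hUh))
        rintro y ⟨⟨a1, a2⟩, a3⟩
        refine ⟨a1, fun h => a2 ((hZ2 y fun h' => a3 (Or.inl h')).1 h), hset y a1 a3⟩
      unfold wt
      rw [if_pos h2, if_neg h0, if_pos h1]
      norm_num
    · have h3 : ¬ {y | Γ.Adj w y ∧ c y = c w}.Finite := by
        intro hf
        refine ((hΓ w).2 hwI) ((hf.union hUh).subset ?_)
        intro y hy
        by_cases hcy : c y = c w
        · exact Or.inl ⟨hy, hcy⟩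
        · exact Or.inr ⟨hy, hcy⟩
      have h4 : {y | Γ.Adj w y ∧ c' y = c' w}.Finite := by
        refine (hZf.union hUh).subset ?_
        rintro y ⟨a1, a2⟩
        by_contra hn
        exact hset y a1 hn a2
      have h5 : wt G X Γ c w = 3 := by
        unfold wt
        rw [if_neg h0, if_neg h1, if_neg h3]
      rw [h5]
      unfold wt
      split_ifs <;> norm_num

/-- The process ends. -/
theorem process {E0 : Finset V} (hE : ∀ w ∈ E0, Inf G w) (hED : ∀ w ∈ E0, w ∉ DD G X)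
    (hΓ : ∀ v, Inf Γ v ↔ Inf G v) (n : ℕ) : ∀ c, Stt G X Γ E0 c →
    ∑ w ∈ E0, wt G X Γ c w ≤ n →
    ∃ c', Stt G X Γ E0 c' ∧ (∀ v ∈ Unp G X c', en Γ (eps Set.univ c') {v} ≠ 0) ∧
      ∀ w ∈ E0, Happy Γ c' w := by
  induction n with
  | zero =>
    intro c hc hn
    obtain ⟨c1, h1, h2, h3⟩ := relax_step hE (fun v => (hΓ v).1) hc
    by_cases hall : ∀ w ∈ E0, Happy Γ c1 w
    · exact ⟨c1, h1, h2, hall⟩
    push Not at hall
    obtain ⟨w, hw, hun⟩ := hall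
    obtain ⟨c2, _, _, h6⟩ := flip_step hE hED hΓ h1 hw hun
    have h7 : wt G X Γ c w = 0 := by
      have := Finset.single_le_sum (f := fun w => wt G X Γ c w) (fun _ _ => Nat.zero_le _) hw
      omega
    have h8 := h3 w hw
    omega
  | succ n ih =>
    intro c hc hn
    obtain ⟨c1, h1, h2, h3⟩ := relax_step hE (fun v => (hΓ v).1) hc
    by_cases hall : ∀ w ∈ E0, Happy Γ c1 w
    · exact ⟨c1, h1, h2, hall⟩
    push Not at hall
    obtain ⟨w, hw, hun⟩ := hall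
    obtain ⟨c2, h4, h5, h6⟩ := flip_step hE hED hΓ h1 hw hun
    refine ih c2 h4 ?_
    have h7 : ∑ w ∈ E0, wt G X Γ c2 w < ∑ w ∈ E0, wt G X Γ c w := by
      refine Finset.sum_lt_sum (fun w' hw' => ?_) ⟨w, hw, h6.trans_le (h3 w hw)⟩
      by_cases hne : w' = w
      · rw [hne]; exact (h6.trans_le (h3 w hw)).le
      · exact (h5 w' hw' hne).trans (h3 w' hw')
    omega

end UnfL
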